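import Pool.Agent.Helper52.C2.Goals

/-!
PROJECT C2 (MP_2b0227_gt): prefix sums of Laurent polynomials, coefficients of products.
-/

namespace Pool.Agent.Helper33.C2

open LaurentPolynomial Pool.Agent.Helper52.C2

theorem pre_eq_sum (f : ℝ[T;T⁻¹]) (k : ℤ) :
    pre f k = f.coeff.sum (fun i c => if i ≤ k then c else 0) := rfl

theorem pre_zero (k : ℤ) : pre 0 k = 0 := by
  simp [pre]

theorem pre_add (f g : ℝ[T;T⁻¹]) (k : ℤ) : pre (f + g) k = pre f k + pre g k := by
  rw [pre_eq_sum, pre_eq_sum, pre_eq_sum, AddMonoidAlgebra.coeff_add]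
  apply Finsupp.sum_add_index'
  · intro a
    split_ifs <;> rfl
  · intro a b c
    split_ifs
    · rfl
    · simp

theorem pre_single (n : ℤ) (a : ℝ) (k : ℤ) :
    pre (C a * T n) k = if n ≤ k then a else 0 := by
  rw [← single_eq_C_mul_T, pre_eq_sum, AddMonoidAlgebra.coeff_single]
  rw [Finsupp.sum_single_index]
  split_ifs <;> rfl

theorem pre_sub_step (f : ℝ[T;T⁻¹]) (k : ℤ) : pre f k - pre f (k - 1) = f.coeff k := by
  induction f using LaurentPolynomial.induction_on' with
  | add p q hp hq =>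
    rw [pre_add, pre_add, AddMonoidAlgebra.coeff_add, Finsupp.add_apply, ← hp, ← hq]
    ring
  | C_mul_T n a =>
    rw [pre_single, pre_single, ← single_eq_C_mul_T, AddMonoidAlgebra.coeff_single,
      Finsupp.single_apply]
    by_cases h1 : n = k
    · subst h1
      rw [if_pos le_rfl, if_neg (by omega), if_pos rfl, sub_zero]
    · rw [if_neg h1]
      by_cases h2 : n ≤ k
      · rw [if_pos h2, if_pos (by omega), sub_self]
      · rw [if_neg h2, if_neg (by omega), sub_self]

theorem pre_C_T_mul (n : ℤ) (a : ℝ) (g : ℝ[T;T⁻¹]) (k : ℤ) :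
    pre (C a * T n * g) k = a * pre g (k - n) := by
  induction g using LaurentPolynomial.induction_on' with
  | add p q hp hq => rw [mul_add, pre_add, pre_add, hp, hq, mul_add]
  | C_mul_T m b =>
    have e : (C a * T n * (C b * T m) : ℝ[T;T⁻¹]) = C (a * b) * T (n + m) := by
      rw [map_mul, T_add]; ring
    rw [e, pre_single, pre_single]
    by_cases h : m ≤ k - n
    · rw [if_pos h, if_pos (by omega)]
    · rw [if_neg h, if_neg (by omega), mul_zero]

theorem pre_T_mul (n : ℤ) (g : ℝ[T;T⁻¹]) (k : ℤ) : pre (T n * g) k = pre g (k - n) := by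
  have := pre_C_T_mul n 1 g k
  rwa [map_one, one_mul, one_mul] at this

theorem pre_mul (f g : ℝ[T;T⁻¹]) (k : ℤ) :
    pre (f * g) k = ∑ a ∈ f.coeff.support, f.coeff a * pre g (k - a) := by
  change pre (f * g) k = f.coeff.sum (fun a c => c * pre g (k - a))
  induction f using LaurentPolynomial.induction_on' with
  | add p q hp hq =>
    rw [add_mul, pre_add, hp, hq, AddMonoidAlgebra.coeff_add]
    symm
    apply Finsupp.sum_add_index'
    · intro a
      rw [zero_mul]
    · intro a b c
      rw [add_mul]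
  | C_mul_T n a =>
    rw [pre_C_T_mul, ← single_eq_C_mul_T, AddMonoidAlgebra.coeff_single,
      Finsupp.sum_single_index (by rw [zero_mul])]

theorem pre_neg (f : ℝ[T;T⁻¹]) (k : ℤ) : pre (-f) k = - pre f k := by
  have h := pre_add f (-f) k
  rw [add_neg_cancel, pre_zero] at h
  linarith

theorem pre_sub (f g : ℝ[T;T⁻¹]) (k : ℤ) : pre (f - g) k = pre f k - pre g k := by
  rw [sub_eq_add_neg, pre_add, pre_neg, sub_eq_add_neg]

theorem coeff_F (S : Tg) (i : ℤ) : S.F.coeff i = pre S.L i - pre S.R i := by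
  rw [← pre_sub, ← S.rel, mul_sub, mul_one, mul_comm S.F (T 1), pre_sub, pre_T_mul,
    pre_sub_step]

theorem goalPre : GoalPre :=
  ⟨coeff_F, pre_sub_step, pre_mul, fun f k i => pre_T_mul k f i, pre_add⟩

theorem goalCoefH : GoalCoefH := by
  intro S n i
  rw [coeff_F]
  change pre (1 * S.L) i - pre (T n * S.R) i = _
  rw [one_mul, pre_T_mul]
  rfl

theorem cpl_sum (f : ℝ[T;T⁻¹]) (m : ℤ × ℤ →₀ ℝ) (g : ℤ × ℤ → ℤ) (φ : ℤ → ℝ)
    (h : ∀ a, (∑ c ∈ m.support, if g c = a then m c else 0) = f.coeff a) :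
    ∑ a ∈ f.coeff.support, f.coeff a * φ a = ∑ c ∈ m.support, m c * φ (g c) := by
  classical
  have h1 : ∑ a ∈ f.coeff.support, f.coeff a * φ a =
      ∑ a ∈ f.coeff.support ∪ m.support.image g, f.coeff a * φ a := by
    apply Finset.sum_subset Finset.subset_union_left
    intro a _ ha
    rw [Finsupp.notMem_support_iff] at ha
    rw [ha, zero_mul]
  rw [h1]
  have h2 : ∀ a, f.coeff a * φ a = ∑ c ∈ m.support, if g c = a then m c * φ (g c) else 0 := by
    intro a
    rw [← h a, Finset.sum_mul]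
    apply Finset.sum_congr rfl
    intro c _
    split_ifs with hc
    · rw [hc]
    · rw [zero_mul]
  rw [Finset.sum_congr rfl (fun a _ => h2 a), Finset.sum_comm]
  apply Finset.sum_congr rfl
  intro c hc
  rw [Finset.sum_ite_eq, if_pos]
  exact Finset.mem_union_right _ (Finset.mem_image_of_mem _ hc)

theorem goalCoefMul : GoalCoefMul := by
  intro A S c i
  rw [coeff_F]
  change pre (A.L * S.L) i - pre (A.R * S.R) i = _
  rw [pre_mul, pre_mul, cpl_sum A.L c.m Prod.fst (fun a => pre S.L (i - a)) c.left,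
    cpl_sum A.R c.m Prod.snd (fun a => pre S.R (i - a)) c.right, ← Finset.sum_sub_distrib]
  apply Finset.sum_congr rfl
  intro p _
  rw [Tg.h, show i - p.1 - (p.2 - p.1) = i - p.2 by ring, mul_sub]

end Pool.Agent.Helper33.C2
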